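import Pool.Agent.Results.MP_4ffbf9_nt.RandomReals
import Pool.Agent.Q319.DR.MultP

/-!
# `A X + B Y = C Z` in products of small spread of ALL large degrees: the largest factor at the multiples of almost all
real numbers

For all `S`, `Q` and `A, B, C > 0` there is `R` such that for all `0 < θ < 1` there is `c > 0` with the following
property for large `N`.  For all real `y` in `[N ^ (1 - θ), 2 N ^ (1 - θ)]` outside a set of measure at most
`N ^ (1 - θ - c)` and all `k ≤ N ^ θ` but at most `N ^ (θ - c)` of them, NO natural number `M` with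
`|M - k y| ≤ N ^ c` is the largest factor in a solution of `A X + B Y = C Z`, `gcd (X, Y) ≤ Q`, in products of spread at
most `S` and of degrees at least `R`.
-/

set_option autoImplicit false

open Finset MeasureTheory Filter

namespace Pool.Agent.Results.MP_4ffbf9_nt.FactorsAtRealMultiples

open RandomReals (Member Solved)

/-- For all `S`, `Q` and `A, B, C > 0` there is `R` such that for all `0 < θ < 1` there are `c > 0` and `N₀` such that
for all `N ≥ N₀`, for all real `y` with `N ^ (1 - θ) ≤ y ≤ 2 N ^ (1 - θ)` outside a measurable set of measure at most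
`N ^ (1 - θ - c)`, at most `N ^ (θ - c)` of the `k` with `1 ≤ k ≤ N ^ θ` have a natural number `M` with
`|M - k y| ≤ N ^ c` which is the largest factor in a solution of `A X + B Y = C Z`, `gcd (X, Y) ≤ Q`, in products of
spread at most `S` and degrees at least `R`. -/
theorem result (S Q A B C : ℕ) (hA : 0 < A) (hB : 0 < B) (hC : 0 < C) :
    ∃ R : ℕ, ∀ θ : ℝ, 0 < θ → θ < 1 → ∃ c : ℝ, 0 < c ∧ ∃ N₀ : ℕ, ∀ N : ℕ, N₀ ≤ N →
      ∃ E : Set ℝ, MeasurableSet E ∧ volume E ≤ ENNReal.ofReal ((N : ℝ) ^ (1 - θ - c)) ∧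
        ∀ y : ℝ, (N : ℝ) ^ (1 - θ) ≤ y → y ≤ 2 * (N : ℝ) ^ (1 - θ) → y ∉ E →
          (Set.ncard {k : ℕ | 1 ≤ k ∧ (k : ℝ) ≤ (N : ℝ) ^ θ ∧
            ∃ M : ℕ, |(M : ℝ) - k * y| ≤ (N : ℝ) ^ c ∧ Solved S Q A B C R M} : ℝ) ≤ (N : ℝ) ^ (θ - c) := by
  classical
  obtain ⟨R, C₁, h⟩ := RandomReals.count S Q A B C hA hB hC (1 / 2) (by norm_num)
  refine ⟨R, fun θ hθ hθ1 => ?_⟩
  obtain ⟨c, hc, hmain⟩ := Pool.Agent.Q319.DR.mult_fewP θ hθ hθ1 (1 / 2) (by norm_num)
  obtain ⟨N₀, hN⟩ := hmain |C₁| {M | Solved S Q A B C R M} (fun X => by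
    rcases Nat.eq_zero_or_pos X with rfl | hX
    · simp
      positivity
    · have hX1 : (1 : ℝ) ≤ X := by exact_mod_cast hX
      have e : (Ioc 0 X).filter (fun n => n ∈ {M | Solved S Q A B C R M}) =
          (Icc 1 X).filter (fun M => Solved S Q A B C R M) := by
        ext n
        simp only [mem_filter, mem_Ioc, mem_Icc, Set.mem_setOf_eq]
        constructor
        · rintro ⟨⟨h1, h2⟩, h3⟩
          exact ⟨⟨h1, h2⟩, h3⟩
        · rintro ⟨⟨h1, h2⟩, h3⟩
          exact ⟨⟨h1, h2⟩, h3⟩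
      rw [e]
      have h1 := h X hX
      have e2 : (1 - 1 / 2 : ℝ) = 1 / 2 := by norm_num
      rw [e2]
      exact h1.trans (mul_le_mul_of_nonneg_right (le_abs_self _) (by positivity)))
  refine ⟨c, hc, N₀, fun N hNN => ?_⟩
  obtain ⟨E, hE, hvol, hy⟩ := hN N hNN
  refine ⟨E, hE, hvol, fun y h1 h2 h3 => ?_⟩
  have h4 := hy y h1 h2 h3
  refine le_trans ?_ h4
  rw [← Set.ncard_coe_finset]
  refine Nat.cast_le.2 (Set.ncard_le_ncard ?_ (Finset.finite_toSet _))
  rintro k ⟨hk1, hk2, M, hM1, hM2⟩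
  rw [mem_coe, mem_filter, mem_Icc]
  exact ⟨⟨hk1, Nat.le_floor hk2⟩, M, hM1, hM2⟩

end Pool.Agent.Results.MP_4ffbf9_nt.FactorsAtRealMultiples
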