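import Pool.Agent.Results.MP_4ffbf9_nt.RandomReals
import Pool.Agent.H106AP.Fam

/-!
# `A X + B Y = C Z` in products of small spread of ALL large degrees: the largest factor at the continued fractions of
almost all real numbers

For every `0 < ε` and all `S`, `Q`, `A`, `B`, `C` there is `R` such that, for all irrational numbers `α` outside a set of
Hausdorff dimension at most `(1 + ε) / 2`, no numerator, denominator or other integral combination of the two of all but
finitely many convergents of the continued fraction of `α` is, up to the sign, the largest factor in a solution of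
`A X + B Y = C Z`, `gcd (X, Y) ≤ Q`, in products of spread at most `S` and of degrees at least `R`.  The same for the
values of integer polynomials at the good simultaneous approximations of the points of `ℝ ^ d`.
-/

set_option autoImplicit false

open Finset MeasureTheory Filter

namespace Pool.Agent.Results.MP_4ffbf9_nt.GoodApproximations

open RandomReals (Member Solved)
open Pool.Agent.H106AP

/-- For `0 < ε` and all `(S, Q, A, B, C)`, `A, B, C > 0`, there is `R = R(ε, S, Q, A, B, C)` such that, at the good
rational approximations of real points in the sense of `Approximations ε`, for all `(S, Q, A, B, C)`: the number `M`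
obtained is not the largest factor in any solution of `A X + B Y = C Z`, `gcd (X, Y) ≤ Q`, in products of spread at
most `S` and degrees at least `R`. -/
theorem result (ε : ℝ) (hε : 0 < ε) :
    ∃ R : ℕ × ℕ × ℕ × ℕ × ℕ → ℕ,
      Approximations ε (fun (i : ℕ × ℕ × ℕ × ℕ × ℕ) (M : ℕ) => 0 < i.2.2.1 → 0 < i.2.2.2.1 → 0 < i.2.2.2.2 →
        ¬ Solved i.1 i.2.1 i.2.2.1 i.2.2.2.1 i.2.2.2.2 (R i) M) := by
  classical
  have hall : ∀ i : ℕ × ℕ × ℕ × ℕ × ℕ, ∃ R : ℕ, Pool.Agent.Q21.DW.PS ε (fun M =>
      ¬ (0 < i.2.2.1 → 0 < i.2.2.2.1 → 0 < i.2.2.2.2 →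
        ¬ Solved i.1 i.2.1 i.2.2.1 i.2.2.2.1 i.2.2.2.2 R M)) := by
    rintro ⟨S, Q, A, B, C⟩
    by_cases hpos : 0 < A ∧ 0 < B ∧ 0 < C
    · obtain ⟨hA, hB, hC⟩ := hpos
      obtain ⟨R, C₁, h⟩ := RandomReals.count S Q A B C hA hB hC ε hε
      refine ⟨R, fun t ht => ⟨|C₁|, fun N hN => ?_⟩⟩
      have hN1 : (1 : ℝ) ≤ N := by exact_mod_cast hN
      calc _ ≤ (((Icc 1 N).filter (fun M => Solved S Q A B C R M)).card : ℝ) := by
            refine Nat.cast_le.2 (Pool.Agent.Q21.DW.card_mono fun m hm h5 => ⟨hm, ?_⟩)
            by_contra hcon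
            exact h5 fun _ _ _ => hcon
        _ ≤ C₁ * (N : ℝ) ^ ε := h N hN
        _ ≤ |C₁| * (N : ℝ) ^ ε := mul_le_mul_of_nonneg_right (le_abs_self _) (by positivity)
        _ ≤ |C₁| * (N : ℝ) ^ t :=
            mul_le_mul_of_nonneg_left (Real.rpow_le_rpow_of_exponent_le hN1 ht.le) (abs_nonneg _)
    · refine ⟨0, fun t ht => ⟨0, fun N hN => ?_⟩⟩
      have : (Icc 1 N).filter (fun M => ¬ (0 < A → 0 < B → 0 < C → ¬ Solved S Q A B C 0 M)) = ∅ := by
        refine Finset.filter_eq_empty_iff.2 fun M _ h => ?_
        push Not at h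
        exact hpos ⟨h.1, h.2.1, h.2.2.1⟩
      rw [zero_mul]
      refine le_of_eq ?_
      rw [Nat.cast_eq_zero, Finset.card_eq_zero]
      convert this
  choose R hR using hall
  exact ⟨R, approximations_of hε.le hR⟩

end Pool.Agent.Results.MP_4ffbf9_nt.GoodApproximations
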