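import Mathlib
import Pool.Agent.Q4.Hall.ProdMain

set_option autoImplicit false

/-!
# `A X + B Y = C Z` in products of small spread, with one base on a polynomial

`X` is a product of `n_X` integers of `[F(x), F(x) + s_X]` for a polynomial value `F(x)`, `Z` is any
product of `n_Z` integers of spread at most `s_Z`. The third term `Y` is at least the power of `X`
which the `abc` conjecture predicts for such products.
-/

namespace Pool.Agent.Results.MP_4ffbf9_nt.OneBaseOnAPolynomial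

open MvPolynomial

/-- the point `(q, x)`; the variable `none` is the one of `q` -/
def point {σ : Type} (q : ℕ) (x : σ → ℤ) : Option σ → ℤ := fun o => o.elim (q : ℤ) x

/-- the integral points `(q, x)` near the ray spanned by `(1, θ)`: `q = u w` where `u` is composed of
primes of `S` and `w ≤ q ^ η`, and `|θₛ q - xₛ| ≤ q ^ η` for all `s` -/
def NearRay {σ : Type} (S : Finset ℕ) (θ : σ → ℝ) (η : ℝ) (q : ℕ) (x : σ → ℤ) : Prop :=
  (∃ u w : ℕ, q = u * w ∧ u.primeFactors ⊆ S ∧ (w : ℝ) ≤ (q : ℝ) ^ η) ∧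
  ∀ s, |θ s * q - x s| ≤ (q : ℝ) ^ η

/-- the value at `(1, θ)` of the homogeneous part of degree `m` -/
noncomputable def atInfinity {σ : Type} (θ : σ → ℝ) (m : ℕ) (F : MvPolynomial (Option σ) ℤ) : ℝ :=
  aeval (fun o : Option σ => (o.elim 1 θ : ℝ)) (homogeneousComponent m F)

/-- for all `X = ∏ (f + iⱼ)` with `n_X` factors, `0 ≤ iⱼ ≤ s_X`, and all `Z = ∏ (z + kⱼ)` with `n_Z`
factors, `0 ≤ kⱼ ≤ s_Z`, `z` an integer: if `A X + B Y = C Z` and `Y ≠ 0` then `|Y| > |X| ^ τ` -/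
def ThirdTermLarge (A B C : ℤ) (nX nZ sX sZ : ℕ) (τ : ℝ) (f : ℤ) : Prop :=
  ∀ (i : Fin nX → Fin (sX + 1)) (k : Fin nZ → Fin (sZ + 1)) (z Y : ℤ), Y ≠ 0 →
    A * (∏ j, (f + ((i j : ℕ) : ℤ))) + B * Y = C * (∏ j, (z + ((k j : ℕ) : ℤ))) →
    |(((∏ j, (f + ((i j : ℕ) : ℤ))) : ℤ) : ℝ)| ^ τ < |(Y : ℝ)|

lemma hexp {nX nZ sX sZ D E : ℕ} (hnX : 0 < nX) (hnZ : 0 < nZ) (hD : 0 < D) (hE : nZ * E = nX * D)
    {τ c : ℝ} (hτ : τ < c * (1 - ((sX : ℝ) + 1) / nX - ((sZ : ℝ) + 1) / nZ + 1 / ((nX : ℝ) * D))) :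
    τ * ((nX * D : ℕ) : ℝ) < c * (((nX * D + 1 : ℕ) : ℝ) - (((sX + 1) * D + (sZ + 1) * E : ℕ) : ℝ)) := by
  have h1 : (0 : ℝ) < nX := by exact_mod_cast hnX
  have h2 : (0 : ℝ) < nZ := by exact_mod_cast hnZ
  have h3 : (0 : ℝ) < D := by exact_mod_cast hD
  have h4 : (nZ : ℝ) * E = nX * D := by exact_mod_cast hE
  have h5 : ((nX * D + 1 : ℕ) : ℝ) - (((sX + 1) * D + (sZ + 1) * E : ℕ) : ℝ)
      = ((nX : ℝ) * D) * (1 - ((sX : ℝ) + 1) / nX - ((sZ : ℝ) + 1) / nZ + 1 / ((nX : ℝ) * D)) := by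
    have h6 : ((nX : ℝ) * D) * (((sZ : ℝ) + 1) / nZ) = ((sZ : ℝ) + 1) * E := by
      rw [← h4]
      field_simp
    have h7 : ((nX : ℝ) * D) * (((sX : ℝ) + 1) / nX) = ((sX : ℝ) + 1) * D := by
      field_simp
    have h8 : ((nX : ℝ) * D) * (1 / ((nX : ℝ) * D)) = 1 := by
      field_simp
    have h9 : ((nX : ℝ) * D) * (1 - ((sX : ℝ) + 1) / nX - ((sZ : ℝ) + 1) / nZ + 1 / ((nX : ℝ) * D))
        = (nX : ℝ) * D - ((nX : ℝ) * D) * (((sX : ℝ) + 1) / nX)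
          - ((nX : ℝ) * D) * (((sZ : ℝ) + 1) / nZ) + ((nX : ℝ) * D) * (1 / ((nX : ℝ) * D)) := by ring
    rw [h9, h6, h7, h8]
    push_cast
    ring
  rw [h5]
  push_cast
  have h6 : 0 < (nX : ℝ) * D := by positivity
  have h7 := mul_lt_mul_of_pos_right hτ h6
  linarith

/-- Let `A, B, C ≠ 0` be integers, `n_X, n_Z > 0` and `s_X, s_Z ≥ 0`.

(1) Let `1, θ₁, …, θₙ` be real algebraic numbers, linearly independent over `ℚ`, `S` a finite set of
primes, `F ∈ ℤ[X₀, …, Xₙ]` of degree at most `D`, where `D > 0` and `n_Z` divides `n_X D`, with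
homogeneous part of degree `D` not vanishing at `(1, θ)`, and
`τ < 1 - (s_X + 1) / n_X - (s_Z + 1) / n_Z + 1 / (n_X D)`. There are `η > 0` and `N` such that for all
integral points `x = (q, x₁, …, xₙ)` near the ray with `q ≥ N`: if `X` is a product of `n_X` integers
of `[F(x), F(x) + s_X]`, `Z` a product of `n_Z` integers of an interval `[z, z + s_Z]` and `Y ≠ 0` an
integer with `A X + B Y = C Z`, then `|Y| > |X| ^ τ`.

(2) Let `ξ` be a real algebraic number of degree `r ≥ 3`, `F ∈ ℤ[U, V]` as in (1), with homogeneous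
part of degree `D` not vanishing at `(1, ξ)`, and
`τ < (1 - 2 / r) (1 - (s_X + 1) / n_X - (s_Z + 1) / n_Z + 1 / (n_X D))`. There are `η > 0` and `N`
such that the same holds with `F(q, p)` for all integers `q ≥ N` and `p` with
`|ξ - p / q| ≤ q ^ (η - 2)`. -/
theorem result (A B C : ℤ) (hA : A ≠ 0) (hB : B ≠ 0) (hC : C ≠ 0) (nX nZ sX sZ : ℕ) (hnX : 0 < nX)
    (hnZ : 0 < nZ) :
    (∀ (n : ℕ) (θ : Fin n → ℝ), (∀ s, IsAlgebraic ℚ (θ s)) →
      LinearIndependent ℚ (fun o : Option (Fin n) => (o.elim 1 θ : ℝ)) → ∀ S : Finset ℕ,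
      ∀ (F : MvPolynomial (Option (Fin n)) ℤ) (D : ℕ), 0 < D → nZ ∣ nX * D → F.totalDegree ≤ D →
      atInfinity θ D F ≠ 0 → ∀ τ : ℝ,
      τ < 1 - ((sX : ℝ) + 1) / nX - ((sZ : ℝ) + 1) / nZ + 1 / ((nX : ℝ) * D) →
      ∃ (η : ℝ) (N : ℕ), 0 < η ∧ ∀ q ≥ N, ∀ x, NearRay S θ η q x →
        ThirdTermLarge A B C nX nZ sX sZ τ (eval (point q x) F)) ∧
    (∀ ξ : ℝ, IsAlgebraic ℚ ξ → 3 ≤ (minpoly ℚ ξ).natDegree →
      ∀ (F : MvPolynomial (Option Unit) ℤ) (D : ℕ), 0 < D → nZ ∣ nX * D → F.totalDegree ≤ D →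
      atInfinity (fun _ => ξ) D F ≠ 0 → ∀ τ : ℝ,
      τ < (1 - 2 / ((minpoly ℚ ξ).natDegree : ℝ))
        * (1 - ((sX : ℝ) + 1) / nX - ((sZ : ℝ) + 1) / nZ + 1 / ((nX : ℝ) * D)) →
      ∃ (η : ℝ) (N : ℕ), 0 < η ∧ ∀ q ≥ N, ∀ p : ℤ, |ξ - p / q| ≤ (q : ℝ) ^ (η - 2) →
        ThirdTermLarge A B C nX nZ sX sZ τ (eval (point q (fun _ => p)) F)) := by
  classical
  constructor
  · intro n θ halg hind S F D hD hdvd hF htop τ hτ
    obtain ⟨E, hE⟩ := hdvd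
    have hE0 : 0 < E := by
      rcases Nat.eq_zero_or_pos E with h | h
      · rw [h, mul_zero] at hE
        have : 0 < nX * D := Nat.mul_pos hnX hD
        omega
      · exact h
    have hf : ∀ x : ℕ, x.primeFactors ⊆ S → x.primeFactors ⊆ S.filter Nat.Prime := fun x hx p hp =>
      Finset.mem_filter.2 ⟨hx hp, Nat.prime_of_mem_primeFactors hp⟩
    have core := fun (d : (Fin nX → Fin (sX + 1)) × (Fin nZ → Fin (sZ + 1))) =>
      Pool.Agent.Q4.Hall.prod_coreT (S.filter Nat.Prime)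
      (fun p hp => (Finset.mem_filter.1 hp).2) halg hind hF hD hE0 htop hA hB hC (Nat.succ_pos sX)
      (Nat.succ_pos sZ) (Pool.Agent.Q4.Hall.cnt d.1) (Pool.Agent.Q4.Hall.cnt d.2)
      (by rw [Pool.Agent.Q4.Hall.cnt_sum]; exact hnZ)
      (by rw [Pool.Agent.Q4.Hall.cnt_sum, Pool.Agent.Q4.Hall.cnt_sum]; exact hE.symm) (τ := τ)
      (by
        rw [Pool.Agent.Q4.Hall.cnt_sum]
        have h1 := hexp (sX := sX) (sZ := sZ) hnX hnZ hD hE.symm (τ := τ) (c := 1) (by rwa [one_mul])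
        rwa [one_mul] at h1)
    choose η N hη h using core
    obtain ⟨d0, hd0⟩ := Finite.exists_min η
    refine ⟨η d0, max (∑ d, N d) 1, hη d0, fun q hq x hx i k z Y hY heq => ?_⟩
    have hqN : N (i, k) ≤ q := (Finset.single_le_sum (f := N) (fun _ _ => Nat.zero_le _)
      (Finset.mem_univ (i, k))).trans ((le_max_left _ _).trans hq)
    obtain ⟨u, w, h2, h3, h4⟩ := hx.1
    have hx' : Pool.Agent.Q4.Tube.Near (S.filter Nat.Prime) θ (η d0) q x := ⟨⟨u, w, h2, hf _ h3, h4⟩, hx.2⟩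
    have h5 := h (i, k) q hqN x
      (Pool.Agent.Q4.Hall.Near.mono (hd0 _) ((le_max_right _ _).trans hq) hx') z Y hY
    have hXv : Pool.Agent.Q4.Hall.Xval F (Pool.Agent.Q4.Hall.cnt i) (Pool.Agent.Q4.Tube.px q x)
        = ∏ j, (eval (point q x) F + ((i j : ℕ) : ℤ)) :=
      (Pool.Agent.Q4.Hall.cnt_prod i (fun v => eval (point q x) F + ((v : ℕ) : ℤ))).symm
    have hZv : ∏ v : Fin (sZ + 1), (z + ((v : ℕ) : ℤ)) ^ (Pool.Agent.Q4.Hall.cnt k v)
        = ∏ j, (z + ((k j : ℕ) : ℤ)) :=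
      (Pool.Agent.Q4.Hall.cnt_prod k (fun v => z + ((v : ℕ) : ℤ))).symm
    rw [hXv, hZv] at h5
    exact h5 heq
  · intro ξ hξ h3 F D hD hdvd hF htop τ hτ
    obtain ⟨E, hE⟩ := hdvd
    have hE0 : 0 < E := by
      rcases Nat.eq_zero_or_pos E with h | h
      · rw [h, mul_zero] at hE
        have : 0 < nX * D := Nat.mul_pos hnX hD
        omega
      · exact h
    have core := fun (d : (Fin nX → Fin (sX + 1)) × (Fin nZ → Fin (sZ + 1))) =>
      Pool.Agent.Q4.Hall.prod_coreO (fun _ => ξ) hξ h3 hF hD hE0 htop hA hB hC (Nat.succ_pos sX)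
      (Nat.succ_pos sZ) (Pool.Agent.Q4.Hall.cnt d.1) (Pool.Agent.Q4.Hall.cnt d.2)
      (by rw [Pool.Agent.Q4.Hall.cnt_sum]; exact hnZ)
      (by rw [Pool.Agent.Q4.Hall.cnt_sum, Pool.Agent.Q4.Hall.cnt_sum]; exact hE.symm) (τ := τ)
      (by
        rw [Pool.Agent.Q4.Hall.cnt_sum]
        exact hexp (sX := sX) (sZ := sZ) hnX hnZ hD hE.symm hτ)
    choose η N hη h using core
    obtain ⟨d0, hd0⟩ := Finite.exists_min η
    refine ⟨η d0, max (∑ d, N d) 1, hη d0, fun q hq p hp i k z Y hY heq => ?_⟩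
    have hqN : N (i, k) ≤ q := (Finset.single_le_sum (f := N) (fun _ _ => Nat.zero_le _)
      (Finset.mem_univ (i, k))).trans ((le_max_left _ _).trans hq)
    have hq1 : 1 ≤ q := (le_max_right _ _).trans hq
    have hqp : (0 : ℝ) < q := by exact_mod_cast hq1
    have hx : (q : ℝ) * |ξ * q - (p : ℝ)| ≤ (q : ℝ) ^ (η d0) := by
      have h2 : ξ * q - p = q * (ξ - p / q) := by field_simp
      have h3' : (q : ℝ) ^ (η d0 - 2) = (q : ℝ) ^ (η d0) / q ^ 2 := by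
        rw [Real.rpow_sub hqp]
        norm_num
      rw [h3'] at hp
      rw [h2, abs_mul, abs_of_pos hqp]
      calc (q : ℝ) * (q * |ξ - p / q|) ≤ q * (q * ((q : ℝ) ^ (η d0) / q ^ 2)) := by gcongr
        _ = (q : ℝ) ^ (η d0) := by field_simp
    have h5 := h (i, k) q hqN (fun _ => p) (hx.trans (Real.rpow_le_rpow_of_exponent_le
      (by exact_mod_cast hq1) (hd0 _))) z Y hY
    have hXv : Pool.Agent.Q4.Hall.Xval F (Pool.Agent.Q4.Hall.cnt i)
        (Pool.Agent.Q4.Tube.px q (fun _ => p))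
        = ∏ j, (eval (point q (fun _ : Unit => p)) F + ((i j : ℕ) : ℤ)) :=
      (Pool.Agent.Q4.Hall.cnt_prod i (fun v => eval (point q (fun _ : Unit => p)) F
        + ((v : ℕ) : ℤ))).symm
    have hZv : ∏ v : Fin (sZ + 1), (z + ((v : ℕ) : ℤ)) ^ (Pool.Agent.Q4.Hall.cnt k v)
        = ∏ j, (z + ((k j : ℕ) : ℤ)) :=
      (Pool.Agent.Q4.Hall.cnt_prod k (fun v => z + ((v : ℕ) : ℤ))).symm
    rw [hXv, hZv] at h5
    exact h5 heq

end Pool.Agent.Results.MP_4ffbf9_nt.OneBaseOnAPolynomial
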