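import Pool.Agent.Results.MP_4ffbf9_nt.AllDegreesCount
import Pool.Agent.Q21.SP.Supp
import Pool.Agent.Q21.DW.Cnt

/-!
# `A X + B Y = C Z` in products of small spread of ALL large degrees: no solution has its largest factor among the
numbers written by digits of a random real number

For every `0 < ε < 1` and all `S`, `Q`, `A`, `B`, `C` there is `R` such that for almost every real number `α`, all
bases `g`, all `κ < 1 - ε` and all large `k`: no number `M` which is written by `k` consecutive digits of `α`,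
beginning after a position `j ≤ g ^ (κ k)`, is the largest factor in a solution of `A X + B Y = C Z`,
`gcd (X, Y) ≤ Q`, in products of spread at most `S` and of degrees at least `R` (there is no upper bound for the
degrees).  With Hausdorff dimensions for `j ≤ η k`, and for windows around dilates.
-/

set_option autoImplicit false

open Finset MeasureTheory Filter

namespace Pool.Agent.Results.MP_4ffbf9_nt.RandomReals

open AllDegreesCount (IsProduct Solutions)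

/-- the list `l` is a product of degree at least `R`, with all factors between `1` and `M`, of spread at most `S` -/
def Member (S R M : ℕ) (l : List ℕ) : Prop :=
  R ≤ l.length ∧ (∀ a ∈ l, 1 ≤ a ∧ a ≤ M) ∧ ∀ a ∈ l, ∀ a' ∈ l, a ≤ a' + S

/-- there is a solution of `A X + B Y = C Z` with `gcd (X, Y) ≤ Q` in products of spread at most `S` and of degrees
at least `R`, with largest factor `M` -/
def Solved (S Q A B C R M : ℕ) : Prop :=
  ∃ l₁ l₂ l₃ : List ℕ, A * l₁.prod + B * l₂.prod = C * l₃.prod ∧ Nat.gcd l₁.prod l₂.prod ≤ Q ∧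
    Member S R M l₁ ∧ Member S R M l₂ ∧ Member S R M l₃ ∧ (M ∈ l₁ ∨ M ∈ l₂ ∨ M ∈ l₃)

/-- the number written by the `k` digits number `j + 1, …, j + k` after the point of `α` in base `g` -/
noncomputable def window (g j k : ℕ) (α : ℝ) : ℕ := (⌊(g : ℝ) ^ (j + k) * α⌋ % (g : ℤ) ^ k).toNat

/-- The properties `G i` of natural numbers hold
(`digits`) for almost every real `α`, all `i`, all bases `g`, all `κ < 1 - θ` and all large `k`, for ALL
numbers `window g j k α`, `j ≤ g ^ (κ k)`;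
(`dim`) for all `α` outside a set of Hausdorff dimension at most `(θ + η) / (1 + η)`, if `j ≤ η k`;
(`dilates`) for all `α > 0` outside a set of `s`-dimensional Hausdorff measure zero, for all `i` and all
large `k`, at ALL natural numbers `m` with `|m - α v k| ≤ w k`, if `v k ≥ 1`, `w k ≥ 0` and
`∑ v k ^ t (w k / v k) ^ s` converges for some `t > θ`. -/
structure RandomReals {ι : Type} (θ : ℝ) (G : ι → ℕ → Prop) : Prop where
  digits : ∀ᵐ α : ℝ, ∀ i, ∀ g : ℕ, 2 ≤ g → ∀ κ : ℝ, κ < 1 - θ → ∀ᶠ k : ℕ in atTop, ∀ j : ℕ,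
    (j : ℝ) ≤ (g : ℝ) ^ (κ * k) → G i (window g j k α)
  dim : ∀ η : ℝ, 0 ≤ η → dimH {α : ℝ | ¬ ∀ i, ∀ g : ℕ, 2 ≤ g → ∀ᶠ k : ℕ in atTop, ∀ j : ℕ,
    (j : ℝ) ≤ η * k → G i (window g j k α)} ≤ ENNReal.ofReal ((θ + η) / (1 + η))
  dilates : ∀ (t s : ℝ) (v w : ℕ → ℝ), θ < t → 0 < s → (∀ k, 1 ≤ v k) → (∀ k, 0 ≤ w k) →
    Summable (fun k => v k ^ t * (w k / v k) ^ s) →
    μH[s] {α : ℝ | 0 < α ∧ ¬ ∀ i, ∀ᶠ k : ℕ in atTop, ∀ m : ℕ, |(m : ℝ) - α * v k| ≤ w k →
      G i m} = 0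

theorem of_engine {ι : Type} {θ : ℝ} {G : ι → ℕ → Prop} (h : Pool.Agent.Q21.DW.RandomReals θ G) :
    RandomReals θ G where
  digits := h.digits
  dim := h.dim
  dilates := h.dilates

/-- the product of the prime factors of a product of small spread -/
lemma rad_le {S R M T : ℕ} {l : List ℕ} (h : Member S R M l) (hMT : M ≤ T) (hT : 1 ≤ T) :
    ∏ p ∈ l.prod.primeFactors, p ≤ T ^ (S + 1) := by
  have hpos : ∀ a ∈ l, 0 < a := fun a ha => (h.2.1 a ha).1
  have hsub : l.prod.primeFactors ⊆ (∏ a ∈ l.toFinset, a).primeFactors := by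
    intro p hp
    rw [Nat.mem_primeFactors] at hp ⊢
    refine ⟨hp.1, ?_, Finset.prod_ne_zero_iff.2 fun a ha => (hpos a (List.mem_toFinset.1 ha)).ne'⟩
    obtain ⟨a, ha, hpa⟩ := (Nat.Prime.prime hp.1).dvd_prod_iff.1 hp.2.1
    exact hpa.trans (Finset.dvd_prod_of_mem _ (List.mem_toFinset.2 ha))
  have h0 : ∏ a ∈ l.toFinset, a ≠ 0 :=
    Finset.prod_ne_zero_iff.2 fun a ha => (hpos a (List.mem_toFinset.1 ha)).ne'
  have h1 : ∏ p ∈ l.prod.primeFactors, p ≤ ∏ a ∈ l.toFinset, a := by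
    refine Nat.le_of_dvd (Nat.pos_of_ne_zero h0) ?_
    exact (Finset.prod_dvd_prod_of_subset _ _ _ hsub).trans (Nat.prod_primeFactors_dvd _)
  refine h1.trans ?_
  have hcard : l.toFinset.card ≤ S + 1 := by
    rcases l.toFinset.eq_empty_or_nonempty with he | he
    · rw [he]
      simp
    · obtain ⟨b, hb, hmin⟩ := Finset.exists_min_image l.toFinset (fun a => a) he
      have h2 : l.toFinset ⊆ Icc b (b + S) := by
        intro a ha
        rw [mem_Icc]
        exact ⟨hmin a ha, h.2.2 a (List.mem_toFinset.1 ha) b (List.mem_toFinset.1 hb)⟩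
      have h3 := card_le_card h2
      rw [Nat.card_Icc] at h3
      omega
  calc ∏ a ∈ l.toFinset, a ≤ ∏ _a ∈ l.toFinset, T :=
        Finset.prod_le_prod' fun a ha => (h.2.1 a (List.mem_toFinset.1 ha)).2.trans hMT
    _ = T ^ l.toFinset.card := by rw [Finset.prod_const]
    _ ≤ T ^ (S + 1) := Nat.pow_le_pow_right hT hcard

open Classical in
/-- the number of largest factors -/
lemma count (S Q A B C : ℕ) (hA : 0 < A) (hB : 0 < B) (hC : 0 < C) (η : ℝ) (hη : 0 < η) :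
    ∃ (R : ℕ) (C₁ : ℝ), ∀ T : ℕ, 1 ≤ T →
      (((Icc 1 T).filter (fun M => Solved S Q A B C R M)).card : ℝ) ≤ C₁ * (T : ℝ) ^ η := by
  obtain ⟨R, C₀, hC₀, h⟩ := AllDegreesCount.result S Q A B C hA hB hC (η / 2) (by positivity)
  obtain ⟨K, hK, hs⟩ := Pool.Agent.Q21.SP.few_support (S + 1) (η / 2) (by positivity) (by positivity)
  refine ⟨R, C₀ * 3 * K, fun T hT => ?_⟩
  have hT0 : (0 : ℝ) < T := by exact_mod_cast hT
  obtain ⟨-, hfin, hcard⟩ := h T hT
  obtain ⟨W, hW⟩ : ∃ W : Set (ℕ × ℕ × ℕ),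
    W = {w ∈ Solutions S Q T R A B C | Nat.gcd w.1 w.2.1 ≤ Q} := ⟨_, rfl⟩
  rw [← hW] at hfin hcard
  obtain ⟨F, hF⟩ : ∃ F : Finset (ℕ × ℕ × ℕ), F = hfin.toFinset := ⟨_, rfl⟩
  have hFc : (F.card : ℝ) ≤ C₀ * (T : ℝ) ^ (η / 2) := by
    rw [hF, ← Set.ncard_eq_toFinset_card _ hfin]
    exact hcard
  obtain ⟨V, hV⟩ : ∃ V : (ℕ × ℕ × ℕ) × Fin 3 → Finset ℕ, V = fun t => (Icc 1 T).filter (fun M =>
    ∃ l : List ℕ, l.prod = (![t.1.1, t.1.2.1, t.1.2.2] : Fin 3 → ℕ) t.2 ∧ Member S R M l ∧ M ∈ l) := ⟨_, rfl⟩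
  have hsub : (Icc 1 T).filter (fun M => Solved S Q A B C R M) ⊆
      (F ×ˢ (univ : Finset (Fin 3))).biUnion V := by
    intro M hM
    rw [mem_filter, mem_Icc] at hM
    obtain ⟨⟨hM1, hMT⟩, l₁, l₂, l₃, h1, h2, h3, h4, h5, h6⟩ := hM
    have hpr : ∀ l : List ℕ, Member S R M l → IsProduct S T R l.prod := fun l hl =>
      ⟨l, rfl, hl.1, fun a ha => ⟨(hl.2.1 a ha).1, (hl.2.1 a ha).2.trans hMT⟩, hl.2.2⟩
    have hg : 0 < Nat.gcd l₁.prod l₂.prod := by
      refine Nat.gcd_pos_of_pos_left _ (List.prod_pos ?_)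
      intro a ha
      exact (h3.2.1 a ha).1
    have hw : (l₁.prod, l₂.prod, l₃.prod) ∈ F := by
      rw [hF, Set.Finite.mem_toFinset, hW]
      refine ⟨⟨h1, ?_, hpr _ h3, hpr _ h4, hpr _ h5⟩, h2⟩
      refine h2.trans (Nat.le_mul_of_pos_right _ ?_)
      exact Finset.prod_pos fun p hp => (Nat.prime_of_mem_primeFactors hp).pos
    rw [mem_biUnion]
    have key : ∀ (l : List ℕ) (i : Fin 3), Member S R M l → M ∈ l →
        l.prod = (![l₁.prod, l₂.prod, l₃.prod] : Fin 3 → ℕ) i →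
        ∃ b ∈ F ×ˢ (univ : Finset (Fin 3)), M ∈ V b := by
      intro l i hl hMl hprod
      refine ⟨((l₁.prod, l₂.prod, l₃.prod), i), mem_product.2 ⟨hw, mem_univ _⟩, ?_⟩
      rw [hV, mem_filter, mem_Icc]
      exact ⟨⟨hM1, hMT⟩, l, hprod, hl, hMl⟩
    rcases h6 with h6 | h6 | h6
    · exact key l₁ 0 h3 h6 rfl
    · exact key l₂ 1 h4 h6 rfl
    · exact key l₃ 2 h5 h6 rfl
  have hVc : ∀ t ∈ F ×ˢ (univ : Finset (Fin 3)), ((V t).card : ℝ) ≤ K * (T : ℝ) ^ (η / 2) := by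
    intro t _
    rcases (V t).eq_empty_or_nonempty with he | ⟨M₀, hM₀⟩
    · rw [he]
      simp only [card_empty, Nat.cast_zero]
      positivity
    · rw [hV, mem_filter, mem_Icc] at hM₀
      obtain ⟨⟨-, hM₀T⟩, l, hl1, hl2, -⟩ := hM₀
      have h1 := rad_le hl2 hM₀T hT
      refine le_trans (Nat.cast_le.2 (card_le_card ?_)) (hs T hT l.prod.primeFactors
        (fun p hp => Nat.prime_of_mem_primeFactors hp) ?_)
      · intro M hM
        rw [hV, mem_filter] at hM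
        obtain ⟨hM1, l', hl1', hl2', hl3'⟩ := hM
        rw [mem_filter]
        refine ⟨hM1, Nat.primeFactors_mono ?_ ?_⟩
        · rw [hl1, ← hl1']
          exact List.dvd_prod hl3'
        · exact (List.prod_pos fun a ha => (hl2.2.1 a ha).1).ne'
      · have h2 : ((∏ p ∈ l.prod.primeFactors, p : ℕ) : ℝ) ≤ ((T ^ (S + 1) : ℕ) : ℝ) := by
          exact_mod_cast h1
        refine h2.trans (le_of_eq ?_)
        rw [Nat.cast_pow, ← Real.rpow_natCast]
        push_cast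
        rfl
  calc (((Icc 1 T).filter (fun M => Solved S Q A B C R M)).card : ℝ)
      ≤ (((F ×ˢ (univ : Finset (Fin 3))).biUnion V).card : ℝ) := by exact_mod_cast card_le_card hsub
    _ ≤ ((∑ t ∈ F ×ˢ (univ : Finset (Fin 3)), (V t).card : ℕ) : ℝ) := by exact_mod_cast card_biUnion_le
    _ = ∑ t ∈ F ×ˢ (univ : Finset (Fin 3)), ((V t).card : ℝ) := by push_cast; rfl
    _ ≤ ∑ _t ∈ F ×ˢ (univ : Finset (Fin 3)), K * (T : ℝ) ^ (η / 2) := sum_le_sum hVc
    _ = (F.card : ℝ) * 3 * (K * (T : ℝ) ^ (η / 2)) := by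
        rw [sum_const, card_product, nsmul_eq_mul, card_univ, Fintype.card_fin]
        push_cast
        ring
    _ ≤ (C₀ * (T : ℝ) ^ (η / 2)) * 3 * (K * (T : ℝ) ^ (η / 2)) := by
        refine mul_le_mul_of_nonneg_right ?_ (by positivity)
        exact mul_le_mul_of_nonneg_right hFc (by norm_num)
    _ = C₀ * 3 * K * ((T : ℝ) ^ (η / 2) * (T : ℝ) ^ (η / 2)) := by ring
    _ = C₀ * 3 * K * (T : ℝ) ^ η := by rw [← Real.rpow_add hT0, add_halves]

/-- For `0 < ε < 1` and all `(S, Q, A, B, C)`, `A, B, C > 0`, there is `R = R(ε, S, Q, A, B, C)` such that, for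
random numbers `M` in the sense of `RandomReals ε`, for all `(S, Q, A, B, C)`: `M` is not the largest factor in any
solution of `A X + B Y = C Z`, `gcd (X, Y) ≤ Q`, in products of spread at most `S` and degrees at least `R`. -/
theorem result (ε : ℝ) (hε : 0 < ε) (hε1 : ε < 1) :
    ∃ R : ℕ × ℕ × ℕ × ℕ × ℕ → ℕ,
      RandomReals ε (fun (i : ℕ × ℕ × ℕ × ℕ × ℕ) (M : ℕ) => 0 < i.2.2.1 → 0 < i.2.2.2.1 → 0 < i.2.2.2.2 →
        ¬ Solved i.1 i.2.1 i.2.2.1 i.2.2.2.1 i.2.2.2.2 (R i) M) := by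
  classical
  have hall : ∀ i : ℕ × ℕ × ℕ × ℕ × ℕ, ∃ R : ℕ, Pool.Agent.Q21.DW.PS ε (fun M =>
      0 < i.2.2.1 ∧ 0 < i.2.2.2.1 ∧ 0 < i.2.2.2.2 ∧
        Solved i.1 i.2.1 i.2.2.1 i.2.2.2.1 i.2.2.2.2 R M) := by
    rintro ⟨S, Q, A, B, C⟩
    by_cases hpos : 0 < A ∧ 0 < B ∧ 0 < C
    · obtain ⟨hA, hB, hC⟩ := hpos
      obtain ⟨R, C₁, h⟩ := count S Q A B C hA hB hC ε hε
      refine ⟨R, fun t ht => ⟨|C₁|, fun N hN => ?_⟩⟩
      have hN1 : (1 : ℝ) ≤ N := by exact_mod_cast hN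
      calc _ ≤ (((Icc 1 N).filter (fun M => Solved S Q A B C R M)).card : ℝ) := by
            refine Nat.cast_le.2 (Pool.Agent.Q21.DW.card_mono fun m hm h5 => ⟨hm, h5.2.2.2⟩)
        _ ≤ C₁ * (N : ℝ) ^ ε := h N hN
        _ ≤ |C₁| * (N : ℝ) ^ ε := mul_le_mul_of_nonneg_right (le_abs_self _) (by positivity)
        _ ≤ |C₁| * (N : ℝ) ^ t :=
            mul_le_mul_of_nonneg_left (Real.rpow_le_rpow_of_exponent_le hN1 ht.le) (abs_nonneg _)
    · refine ⟨0, fun t ht => ⟨0, fun N hN => ?_⟩⟩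
      have : (Icc 1 N).filter (fun M => 0 < A ∧ 0 < B ∧ 0 < C ∧ Solved S Q A B C 0 M) = ∅ := by
        refine Finset.filter_eq_empty_iff.2 fun M _ h => hpos ⟨h.1, h.2.1, h.2.2.1⟩
      rw [zero_mul]
      refine le_of_eq ?_
      rw [Nat.cast_eq_zero, Finset.card_eq_zero]
      convert this
  choose R hR using hall
  refine ⟨R, of_engine (Pool.Agent.Q21.DW.randomReals_of
    (B := fun (i : ℕ × ℕ × ℕ × ℕ × ℕ) (M : ℕ) => 0 < i.2.2.1 ∧ 0 < i.2.2.2.1 ∧ 0 < i.2.2.2.2 ∧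
      Solved i.1 i.2.1 i.2.2.1 i.2.2.2.1 i.2.2.2.2 (R i) M) hε.le hε1 hR ?_)⟩
  intro i M _ hM hA hB hC hS
  exact hM ⟨hA, hB, hC, hS⟩

end Pool.Agent.Results.MP_4ffbf9_nt.RandomReals
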